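import Pool.Agent.Lib.MP_d6b03d_al.Assembly

/-!
# The union of the Frobenius kernels with a fixed cyclic complement need not be a subgroup

Negative answer to the question: there are a group `G`, a proper subgroup `H` and an element
`a ∈ H` with `a ^ 2 ≠ 1` such that for every `g ∉ H` the group `⟨a, a ^ g⟩` is a Frobenius group
with `a` in its complement, while the union `U(a)` of the kernels of all Frobenius subgroups with
complement `⟨a⟩` is not closed under multiplication.
-/

set_option autoImplicit false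

namespace Pool.Agent.Results.MP_d6b03d_al.NotSubgroup

open Pool.Agent.D6b

theorem result : ∃ (G : Type) (_ : Group G) (H : Subgroup G) (a : G), Star H a ∧
    (∀ n : ℕ, 0 < n → a ^ n ≠ 1) ∧ (∃ x ∈ UU' a, ∃ y ∈ UU' a, x * y ∉ UU a) ∧
    (¬ ∃ S : Subgroup G, (S : Set G) = UU a) ∧ ¬ ∃ S : Subgroup G, (S : Set G) = UU' a := by
  obtain ⟨G, iG, H, a, hstar, hinf, x, hx, y, hy, hxy⟩ := main_theorem
  have hsub : ∀ z : G, z ∈ UU' a → z ∈ UU a := by
    rintro z ⟨L, F, -, hF, hz⟩
    exact ⟨L, F, hF, hz⟩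
  refine ⟨G, iG, H, a, hstar, hinf, ⟨x, hx, y, hy, hxy⟩, ?_, ?_⟩
  · rintro ⟨S, hS⟩
    apply hxy
    rw [← hS]
    have h1 : x ∈ (S : Set G) := by rw [hS]; exact hsub x hx
    have h2 : y ∈ (S : Set G) := by rw [hS]; exact hsub y hy
    exact S.mul_mem h1 h2
  · rintro ⟨S, hS⟩
    apply hxy
    apply hsub
    rw [← hS]
    have h1 : x ∈ (S : Set G) := by rw [hS]; exact hx
    have h2 : y ∈ (S : Set G) := by rw [hS]; exact hy
    exact S.mul_mem h1 h2

end Pool.Agent.Results.MP_d6b03d_al.NotSubgroup
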