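import Pool.Agent.Lib.MP_d6b03d_al.Main
import Pool.Agent.Lib.MP_d6b03d_al.Fin

/-!
# The union of the Frobenius kernels with complement `⟨a⟩`

Let `H` be a proper subgroup of `G` and `a ∈ H` with `a ^ 2 ≠ 1`, such that for every `g ∉ H` the
group `⟨a, a ^ g⟩` is a Frobenius group with `a` in its complement `C`, and `C ≤ H` or the group is
finite. If `H` centralises `a`, or `H` centralises or inverts `a` and `a ^ 6 ≠ 1`, `a ^ 8 ≠ 1`, or
`a` has infinite order and `H` normalises `⟨a⟩`, then `U(a)` is a normal subgroup of `G` and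
`G = U(a) ⋊ H`.
-/

namespace Pool.Agent.Results.MP_d6b03d_al.UnionOfKernels

open Pool.Agent.Lib.MP_d6b03d_al

/-- A Frobenius subgroup of a complement, seen inside a finite group. -/
theorem frobenius_subgroupOf {G : Type*} [Group G] {L M F C : Subgroup G}
    (h : IsFrobenius M F C) (hML : M ≤ L) :
    IsFrobenius (M.subgroupOf L) (F.subgroupOf L) (C.subgroupOf L) where
  kernel_le := fun x hx => h.kernel_le hx
  compl_le := fun x hx => h.compl_le hx
  normal := by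
    rintro ⟨g, hg⟩ hgM ⟨x, hx⟩ hxF
    exact h.normal g hgM x hxF
  disjoint := by
    rw [eq_bot_iff]
    rintro ⟨x, hx⟩ ⟨h1, h2⟩
    have : x = 1 := h.eq_one_of_mem h1 h2
    rw [Subgroup.mem_bot]
    exact Subtype.ext this
  mul := by
    rintro ⟨x, hx⟩ hxM
    obtain ⟨f, hf, c, hc, h1⟩ := h.mul x hxM
    exact ⟨⟨f, hML (h.kernel_le hf)⟩, hf, ⟨c, hML (h.compl_le hc)⟩, hc, Subtype.ext h1⟩
  nontrivial := by
    intro h0
    obtain ⟨f, hf, hf1⟩ := (Subgroup.bot_or_exists_ne_one F).resolve_left h.nontrivial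
    have : (⟨f, hML (h.kernel_le hf)⟩ : L) ∈ F.subgroupOf L := hf
    rw [h0, Subgroup.mem_bot] at this
    exact hf1 (congrArg Subtype.val this)
  malnormal := by
    rintro ⟨g, hg⟩ hgM hgC ⟨x, hx⟩ hxC hxC'
    have : x = 1 := h.malnormal g hgM hgC x hxC hxC'
    exact Subtype.ext this
  partition := by
    rintro ⟨x, hx⟩ hxM
    have := h.partition x hxM
    constructor
    · rintro ⟨h1, h2⟩ ⟨g, hg⟩ hgM
      exact this.1 ⟨h1, fun h3 => h2 (Subtype.ext h3)⟩ g hgM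
    · intro h1
      have h2 := this.2 fun g hg => h1 ⟨g, hML hg⟩ hg
      exact ⟨h2.1, fun h3 => h2.2 (congrArg Subtype.val h3)⟩

theorem result {G : Type*} [Group G] (H : Subgroup G) (a : G) (haH : a ∈ H) (hH : H ≠ ⊤)
    (ha : a ^ 2 ≠ 1)
    (hstar : ∀ g : G, g ∉ H → ∃ F C : Subgroup G,
      IsFrobenius (Subgroup.closure {a, g⁻¹ * a * g}) F C ∧ a ∈ C ∧
        (C ≤ H ∨ Finite (Subgroup.closure {a, g⁻¹ * a * g} : Subgroup G)))
    (hcase : (∀ h ∈ H, h⁻¹ * a * h = a) ∨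
      ((∀ h ∈ H, h⁻¹ * a * h = a ∨ h⁻¹ * a * h = a⁻¹) ∧ a ^ 6 ≠ 1 ∧ a ^ 8 ≠ 1) ∨
      ((∀ h ∈ H, h⁻¹ * a * h ∈ Subgroup.zpowers a) ∧ ¬ IsOfFinOrder a)) :
    ∃ K : Subgroup G, (K : Set G) = U a ∧ K.Normal ∧ K ⊓ H = ⊥ ∧ K ⊔ H = ⊤ := by
  have ha1 : a ≠ 1 := by
    rintro rfl
    exact ha (one_pow 2)
  -- the complements lie in `H`
  have hfrob : ∀ g ∉ H, ∃ F C : Subgroup G,
      IsFrobenius (Subgroup.closure {a, g⁻¹ * a * g}) F C ∧ a ∈ C ∧ C ≤ H := by
    intro g hg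
    obtain ⟨F, C, h1, haC, hC⟩ := hstar g hg
    refine ⟨F, C, h1, haC, ?_⟩
    rcases hC with hC | hfin
    · exact hC
    intro c hc
    by_contra hcH
    obtain ⟨F₁, C₁, h2, haC₁, -⟩ := hstar c hcH
    have hMC : Subgroup.closure {a, c⁻¹ * a * c} ≤ C := by
      rw [Subgroup.closure_le]
      rintro z (rfl | hz)
      · exact haC
      · rw [Set.mem_singleton_iff] at hz
        rw [hz]
        exact C.mul_mem (C.mul_mem (C.inv_mem hc) haC) hc
    have hML := hMC.trans h1.compl_le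
    have h3 := h1.restrict
    have h4 := frobenius_subgroupOf h2 hML
    refine no_frobenius h3 (fun x hx => hMC hx) h4 ?_
    intro h0
    have : (⟨a, h1.compl_le haC⟩ : (Subgroup.closure {a, g⁻¹ * a * g} : Subgroup G)) ∈
        C₁.subgroupOf (Subgroup.closure {a, g⁻¹ * a * g}) := haC₁
    rw [h0, Subgroup.mem_bot] at this
    exact ha1 (congrArg Subtype.val this)
  rcases hcase with hcase | ⟨hcase, h6, h8⟩ | ⟨hcase, hinf⟩
  · have hyp : Hyp H a := ⟨haH, hH, ha, fun h hh => Or.inl (hcase h hh), hfrob⟩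
    exact hyp.main' (Or.inl hcase)
  · have hyp : Hyp H a := ⟨haH, hH, ha, hcase, hfrob⟩
    exact hyp.main' (Or.inr ⟨h6, h8⟩)
  · have hinj : ∀ m n : ℤ, a ^ m = a ^ n → m = n := by
      intro m n hmn
      exact injective_zpow_iff_not_isOfFinOrder.2 hinf hmn
    have hpm : ∀ h ∈ H, h⁻¹ * a * h = a ∨ h⁻¹ * a * h = a⁻¹ := by
      intro h hh
      obtain ⟨k, hk⟩ := hcase h hh
      obtain ⟨m, hm⟩ := hcase h⁻¹ (H.inv_mem hh)
      simp only [inv_inv] at hk hm
      have e1 : a = a ^ (k * m) := by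
        have e2 : a = h⁻¹ * (h * a * h⁻¹) * h := by group
        have e3 : h⁻¹ * a ^ m * h = (h⁻¹ * a * h) ^ m := by
          have : h⁻¹ * a * h = MulAut.conj h⁻¹ a := by simp
          rw [this, ← map_zpow]
          simp
        rw [← hm, e3, ← hk, ← zpow_mul] at e2
        exact e2
      have e4 : (1 : ℤ) = k * m := hinj _ _ (by rw [zpow_one]; exact e1)
      rcases Int.eq_one_or_neg_one_of_mul_eq_one e4.symm with hk1 | hk1
      · left
        rw [← hk, hk1, zpow_one]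
      · right
        rw [← hk, hk1, zpow_neg_one]
    have h6 : a ^ 6 ≠ 1 := by
      intro h0
      exact hinf (isOfFinOrder_iff_pow_eq_one.2 ⟨6, by norm_num, h0⟩)
    have h8 : a ^ 8 ≠ 1 := by
      intro h0
      exact hinf (isOfFinOrder_iff_pow_eq_one.2 ⟨8, by norm_num, h0⟩)
    have hyp : Hyp H a := ⟨haH, hH, ha, hpm, hfrob⟩
    exact hyp.main' (Or.inr ⟨h6, h8⟩)

end Pool.Agent.Results.MP_d6b03d_al.UnionOfKernels
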